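import Pool.Agent.Q14.EdgeV

/-!
# The v-number can drop by an arbitrary amount from `I` to `I^2`

`edgeIdeal K G` (from `Pool.Agent.Q14.EdgeV`) is the ideal of `K[x_v : v a vertex]` generated by
the products `x_a x_b`, `ab` an edge of the graph `G`.
-/

set_option autoImplicit false

namespace Pool.Agent.Results.MP_0bcfe8_al.LargeDrop

open MvPolynomial Q14.Mono Q14.EdgeV

attribute [local instance] MvPolynomial.gradedAlgebra

/-- The degrees of the homogeneous polynomials `f` such that `(J : f)` is an associated prime of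
`S/J`. -/
def vSet {K : Type*} [Field K] {n : ℕ} (J : Ideal (MvPolynomial (Fin n) K)) : Set ℕ :=
  {d | ∃ f : MvPolynomial (Fin n) K, f.IsHomogeneous d ∧
    Submodule.colon J {f} ∈ associatedPrimes (MvPolynomial (Fin n) K) (MvPolynomial (Fin n) K ⧸ J)}

/-- `v(J) = d`. -/
def IsVNumber {K : Type*} [Field K] {n : ℕ} (J : Ideal (MvPolynomial (Fin n) K)) (d : ℕ) : Prop :=
  IsLeast (vSet J) d

/-! ### The graph: a triangle with `m` triangles attached at each of its three vertices -/

/-- Vertices: the three vertices of the central triangle, and for each of them `m` pairs. -/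
abbrev V (m : ℕ) : Type := Fin 3 ⊕ (Fin 3 × Fin m × Bool)

/-- Adjacency: the central triangle, the two ends of each pair are adjacent to each other
and to the vertex of the triangle to which the pair belongs. -/
def adj {m : ℕ} : V m → V m → Prop
  | Sum.inl i, Sum.inl j => i ≠ j
  | Sum.inl i, Sum.inr (j, _, _) => i = j
  | Sum.inr (i, _, _), Sum.inl j => i = j
  | Sum.inr (i, s, b), Sum.inr (j, t, c) => i = j ∧ s = t ∧ b ≠ c

/-- The graph. -/
def gr (m : ℕ) : SimpleGraph (V m) where
  Adj := adj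
  symm := ⟨by
    rintro (i | ⟨i, s, b⟩) (j | ⟨j, t, c⟩) h
    · exact Ne.symm h
    · exact Eq.symm h
    · exact Eq.symm h
    · exact ⟨h.1.symm, h.2.1.symm, h.2.2.symm⟩⟩
  loopless := ⟨by
    rintro (i | ⟨i, s, b⟩) h
    · exact h rfl
    · exact h.2.2 rfl⟩

lemma card_V (m : ℕ) : Fintype.card (V m) = 3 + 3 * (m * 2) := by
  simp [V]

/-- Transport of independent sets with covering neighbourhood along a bijection. -/
lemma indCover_map {σ τ : Type*} (e : σ ≃ τ) (G : SimpleGraph σ) (A : Finset τ)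
    (h : IndCover (G.comap e.symm) A) : IndCover G (A.map e.symm.toEmbedding) where
  indep := by
    intro a ha b hb hab
    rw [Finset.mem_map] at ha hb
    obtain ⟨a', ha', rfl⟩ := ha
    obtain ⟨b', hb', rfl⟩ := hb
    exact h.indep a' ha' b' hb' hab
  cover := by
    intro a b hab
    have hab' : (G.comap e.symm).Adj (e a) (e b) := by
      simpa [SimpleGraph.comap_adj] using hab
    rcases h.cover _ _ hab' with ⟨c, hc, hca⟩ | ⟨c, hc, hca⟩
    · left
      refine ⟨e.symm c, Finset.mem_map.mpr ⟨c, hc, rfl⟩, ?_⟩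
      simpa [SimpleGraph.comap_adj] using hca
    · right
      refine ⟨e.symm c, Finset.mem_map.mpr ⟨c, hc, rfl⟩, ?_⟩
      simpa [SimpleGraph.comap_adj] using hca

lemma indCover_map' {σ τ : Type*} (e : σ ≃ τ) (G : SimpleGraph σ) (A : Finset σ)
    (h : IndCover G A) : IndCover (G.comap e.symm) (A.map e.toEmbedding) where
  indep := by
    intro a ha b hb hab
    rw [Finset.mem_map] at ha hb
    obtain ⟨a', ha', rfl⟩ := ha
    obtain ⟨b', hb', rfl⟩ := hb
    rw [SimpleGraph.comap_adj] at hab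
    simp only [Equiv.coe_toEmbedding, Equiv.symm_apply_apply] at hab
    exact h.indep a' ha' b' hb' hab
  cover := by
    intro a b hab
    rw [SimpleGraph.comap_adj] at hab
    rcases h.cover _ _ hab with ⟨c, hc, hca⟩ | ⟨c, hc, hca⟩
    · left
      refine ⟨e c, Finset.mem_map.mpr ⟨c, hc, rfl⟩, ?_⟩
      rw [SimpleGraph.comap_adj]
      simpa using hca
    · right
      refine ⟨e c, Finset.mem_map.mpr ⟨c, hc, rfl⟩, ?_⟩
      rw [SimpleGraph.comap_adj]
      simpa using hca

/-- Every such set has at least `2m+1` elements. -/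
lemma card_ge {m : ℕ} (hm : 1 ≤ m) (A : Finset (V m)) (h : IndCover (gr m) A) :
    2 * m + 1 ≤ A.card := by
  classical
  have key : ∀ (j : Fin 3) (s : Fin m), Sum.inl j ∉ A → ∃ b, Sum.inr (j, s, b) ∈ A := by
    intro j s hj
    have h1 : (gr m).Adj (Sum.inr (j, s, false)) (Sum.inr (j, s, true)) :=
      ⟨rfl, rfl, by decide⟩
    rcases h.cover _ _ h1 with ⟨c, hc, hadj⟩ | ⟨c, hc, hadj⟩
    · rcases c with i | ⟨i, t, b⟩
      · have : i = j := hadj
        subst this; exact absurd hc hj
      · obtain ⟨rfl, rfl, hb⟩ := hadj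
        exact ⟨b, hc⟩
    · rcases c with i | ⟨i, t, b⟩
      · have : i = j := hadj
        subst this; exact absurd hc hj
      · obtain ⟨rfl, rfl, hb⟩ := hadj
        exact ⟨b, hc⟩
  let φ : V m → Fin 3 ⊕ (Fin 3 × Fin m) :=
    Sum.map id (fun p => (p.1, p.2.1))
  have hφ : ∀ j s, Sum.inl j ∉ A → Sum.inr (j, s) ∈ A.image φ := by
    intro j s hj
    obtain ⟨b, hb⟩ := key j s hj
    exact Finset.mem_image.mpr ⟨_, hb, rfl⟩
  refine le_trans ?_ (Finset.card_image_le (s := A) (f := φ))
  by_cases hex : ∃ j, Sum.inl j ∈ A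
  · obtain ⟨j, hj⟩ := hex
    have hother : ∀ i, i ≠ j → Sum.inl i ∉ A := by
      intro i hij hi
      exact h.indep _ hi _ hj hij
    have hsub : insert (Sum.inl j) (((Finset.univ.erase j) ×ˢ (Finset.univ : Finset (Fin m))).map
        ⟨Sum.inr, Sum.inr_injective⟩) ⊆ A.image φ := by
      intro x hx
      rcases Finset.mem_insert.mp hx with rfl | hx
      · exact Finset.mem_image.mpr ⟨_, hj, rfl⟩
      · obtain ⟨⟨i, s⟩, hp, rfl⟩ := Finset.mem_map.mp hx
        rw [Finset.mem_product, Finset.mem_erase] at hp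
        exact hφ i s (hother i hp.1.1)
    refine le_trans ?_ (Finset.card_le_card hsub)
    rw [Finset.card_insert_of_notMem, Finset.card_map, Finset.card_product,
      Finset.card_erase_of_mem (Finset.mem_univ _)]
    · simp
    · simp
  · push Not at hex
    have hsub : ((Finset.univ : Finset (Fin 3 × Fin m)).map
        ⟨Sum.inr, Sum.inr_injective⟩) ⊆ A.image φ := by
      intro x hx
      obtain ⟨⟨i, s⟩, hp, rfl⟩ := Finset.mem_map.mp hx
      exact hφ i s (hex i)
    refine le_trans ?_ (Finset.card_le_card hsub)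
    rw [Finset.card_map, Finset.card_univ, Fintype.card_prod, Fintype.card_fin, Fintype.card_fin]
    omega

/-- A set attaining the bound. -/
lemma exists_card_eq (m : ℕ) : ∃ A : Finset (V m), IndCover (gr m) A ∧ A.card = 2 * m + 1 := by
  classical
  let A : Finset (V m) := insert (Sum.inl 0)
    (((Finset.univ.erase (0 : Fin 3)) ×ˢ (Finset.univ : Finset (Fin m))).map
      ⟨fun p => Sum.inr (p.1, p.2, false), by
        rintro ⟨a, b⟩ ⟨c, d⟩ h
        simpa using h⟩)
  have hA : ∀ v, v ∈ A ↔ v = Sum.inl 0 ∨ ∃ i s, i ≠ 0 ∧ v = Sum.inr (i, s, false) := by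
    intro v
    simp only [A, Finset.mem_insert, Finset.mem_map, Finset.mem_product, Finset.mem_erase,
      Finset.mem_univ, and_true, Prod.exists]
    constructor
    · rintro (h | ⟨i, s, h, rfl⟩)
      · exact Or.inl h
      · exact Or.inr ⟨i, s, h, rfl⟩
    · rintro (h | ⟨i, s, h, rfl⟩)
      · exact Or.inl h
      · exact Or.inr ⟨i, s, h, rfl⟩
  refine ⟨A, ⟨?_, ?_⟩, ?_⟩
  · intro a ha b hb hab
    rw [hA] at ha hb
    rcases ha with rfl | ⟨i, s, hi, rfl⟩ <;> rcases hb with rfl | ⟨j, t, hj, rfl⟩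
    · exact hab rfl
    · exact hj (Eq.symm hab)
    · exact hi hab
    · exact hab.2.2 rfl
  · -- the neighbourhood
    have n1 : ∀ i : Fin 3, i ≠ 0 → ∃ c ∈ A, (gr m).Adj c (Sum.inl i) :=
      fun i hi => ⟨Sum.inl 0, (hA _).mpr (Or.inl rfl), hi.symm⟩
    have n2 : ∀ (s : Fin m) (b : Bool), ∃ c ∈ A, (gr m).Adj c (Sum.inr (0, s, b)) :=
      fun s b => ⟨Sum.inl 0, (hA _).mpr (Or.inl rfl), rfl⟩
    have n3 : ∀ (i : Fin 3) (s : Fin m), i ≠ 0 → ∃ c ∈ A, (gr m).Adj c (Sum.inr (i, s, true)) :=
      fun i s hi => ⟨Sum.inr (i, s, false), (hA _).mpr (Or.inr ⟨i, s, hi, rfl⟩),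
        ⟨rfl, rfl, by decide⟩⟩
    rintro (i | ⟨i, s, b⟩) (j | ⟨j, t, c⟩) hab
    · have hij : i ≠ j := hab
      by_cases hi : i = 0
      · right
        exact n1 j (by rw [← hi]; exact hij.symm)
      · left; exact n1 i hi
    · have hij : i = j := hab
      subst hij
      by_cases hi : i = 0
      · subst hi; right; exact n2 t c
      · left; exact n1 i hi
    · have hij : i = j := hab
      subst hij
      by_cases hi : i = 0
      · subst hi; left; exact n2 s b
      · right; exact n1 i hi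
    · obtain ⟨rfl, rfl, hbc⟩ := hab
      by_cases hi : i = 0
      · subst hi; left; exact n2 s b
      · cases b
        · cases c
          · exact absurd rfl hbc
          · right; exact n3 i s hi
        · left; exact n3 i s hi
  · show (insert _ _ : Finset (V m)).card = _
    rw [Finset.card_insert_of_notMem, Finset.card_map, Finset.card_product,
      Finset.card_erase_of_mem (Finset.mem_univ _)]
    · simp
    · simp

section Main

variable {K : Type*} [Field K]

lemma isVNumber_edgeIdeal {n m : ℕ} (hm : 1 ≤ m) (e : V m ≃ Fin n) :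
    IsVNumber (edgeIdeal K ((gr m).comap e.symm)) (2 * m + 1) := by
  constructor
  · obtain ⟨A, hA, hc⟩ := exists_card_eq m
    have hA' := indCover_map' e (gr m) A hA
    refine ⟨monomial (ind (A.map e.toEmbedding)) 1, ?_, ?_⟩
    · apply isHomogeneous_monomial
      rw [degree_ind, Finset.card_map, hc]
    · apply colon_mem_associatedPrimes
      rw [colon_ind hA']
      exact PV_isPrime _
  · rintro d ⟨f, hf, hP⟩
    obtain ⟨A, hA, hc⟩ := exists_indCover hf (AssociatedPrimes.mem_iff.mp hP).isPrime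
    have := card_ge hm _ (indCover_map e (gr m) A hA)
    rw [Finset.card_map] at this
    omega

lemma isVNumber_sq {n m : ℕ} (e : V m ≃ Fin n) :
    IsVNumber (edgeIdeal K ((gr m).comap e.symm) ^ 2) 3 := by
  let G := (gr m).comap e.symm
  have h3 : ∀ i j : Fin 3, i ≠ j → G.Adj (e (Sum.inl i)) (e (Sum.inl j)) := by
    intro i j hij
    show (gr m).Adj (e.symm (e (Sum.inl i))) (e.symm (e (Sum.inl j)))
    rw [e.symm_apply_apply, e.symm_apply_apply]
    exact hij
  have hdom : ∀ v, G.Adj v (e (Sum.inl 0)) ∨ G.Adj v (e (Sum.inl 1)) ∨ G.Adj v (e (Sum.inl 2)) := by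
    intro v
    obtain ⟨w, rfl⟩ := e.surjective v
    have hG : ∀ i, G.Adj (e w) (e (Sum.inl i)) ↔ adj w (Sum.inl i) := by
      intro i
      show (gr m).Adj (e.symm (e w)) (e.symm (e (Sum.inl i))) ↔ _
      rw [e.symm_apply_apply, e.symm_apply_apply]
      exact Iff.rfl
    rw [hG, hG, hG]
    rcases w with i | ⟨i, s, b⟩
    · show i ≠ 0 ∨ i ≠ 1 ∨ i ≠ 2
      by_contra hcon
      push Not at hcon
      obtain ⟨h1, h2, -⟩ := hcon
      rw [h1] at h2
      exact absurd h2 (by decide)
    · show i = 0 ∨ i = 1 ∨ i = 2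
      omega
  constructor
  · refine ⟨X (e (Sum.inl 0)) * X (e (Sum.inl 1)) * X (e (Sum.inl 2)), ?_, ?_⟩
    · exact ((isHomogeneous_X K _).mul (isHomogeneous_X K _)).mul (isHomogeneous_X K _)
    · apply colon_mem_associatedPrimes
      rw [colon_sq_triangle (h3 0 1 (by decide)) (h3 1 2 (by decide)) (h3 0 2 (by decide)) hdom]
      exact PV_isPrime _
  · rintro d ⟨f, hf, hP⟩
    exact le_degree_of_colon_prime (h3 0 1 (by decide)) 1 hf
      (AssociatedPrimes.mem_iff.mp hP).isPrime

lemma isHomogeneous_edgeIdeal {n : ℕ} (G : SimpleGraph (Fin n)) :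
    (edgeIdeal K G).IsHomogeneous (homogeneousSubmodule (Fin n) K) := by
  apply Ideal.homogeneous_span
  rintro _ ⟨a, b, -, rfl⟩
  exact ⟨2, (isHomogeneous_X K a).mul (isHomogeneous_X K b)⟩

/-- **Strict monotonicity of the v-number along powers fails, by an arbitrary amount.**
Let `K` be any field.
* For every `m ≥ 1` there is a graph `G` whose edge ideal `I` (nonzero, proper, homogeneous)
  satisfies `v(I) = 2m+1` and `v(I^2) = 3`.
* In particular, it is not true that `v(I^k) < v(I^(k+1))` for all `n`, all nonzero proper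
  homogeneous ideals `I` of `K[x_1, …, x_n]` and all `k ≥ 1`. -/
theorem result (K : Type*) [Field K] :
    (∀ m : ℕ, 1 ≤ m → ∃ (n : ℕ) (G : SimpleGraph (Fin n)),
      (edgeIdeal K G).IsHomogeneous (homogeneousSubmodule (Fin n) K) ∧
      edgeIdeal K G ≠ ⊥ ∧ edgeIdeal K G ≠ ⊤ ∧
      IsVNumber (edgeIdeal K G) (2 * m + 1) ∧ IsVNumber (edgeIdeal K G ^ 2) 3) ∧
    ¬ (∀ (n : ℕ) (I : Ideal (MvPolynomial (Fin n) K)),
      I.IsHomogeneous (homogeneousSubmodule (Fin n) K) → I ≠ ⊥ → I ≠ ⊤ →
      ∀ k : ℕ, 1 ≤ k → ∀ v w : ℕ, IsVNumber (I ^ k) v → IsVNumber (I ^ (k + 1)) w → v < w) := by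
  have main : ∀ m : ℕ, 1 ≤ m → ∃ (n : ℕ) (G : SimpleGraph (Fin n)),
      (edgeIdeal K G).IsHomogeneous (homogeneousSubmodule (Fin n) K) ∧
      edgeIdeal K G ≠ ⊥ ∧ edgeIdeal K G ≠ ⊤ ∧
      IsVNumber (edgeIdeal K G) (2 * m + 1) ∧ IsVNumber (edgeIdeal K G ^ 2) 3 := by
    intro m hm
    let e : V m ≃ Fin (3 + 3 * (m * 2)) := Fintype.equivFinOfCardEq (card_V m)
    refine ⟨3 + 3 * (m * 2), (gr m).comap e.symm, isHomogeneous_edgeIdeal _, ?_, ?_,
      isVNumber_edgeIdeal hm e, isVNumber_sq e⟩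
    · intro h
      have h1 : (X (e (Sum.inl 0)) * X (e (Sum.inl 1)) : MvPolynomial _ K) ∈
          edgeIdeal K ((gr m).comap e.symm) := by
        apply edge_mem
        rw [SimpleGraph.comap_adj, e.symm_apply_apply, e.symm_apply_apply]
        show (0 : Fin 3) ≠ 1
        decide
      rw [h, Ideal.mem_bot, mul_eq_zero] at h1
      rcases h1 with h1 | h1
      · exact X_ne_zero _ h1
      · exact X_ne_zero _ h1
    · intro h
      have h1 : (1 : MvPolynomial _ K) ∈ edgeIdeal K ((gr m).comap e.symm) := by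
        rw [h]; exact Submodule.mem_top
      have h2 := pow_le_deg (K := K) ((gr m).comap e.symm) 1
      rw [pow_one] at h2
      have h3 := h2 h1
      rw [show (1 : MvPolynomial (Fin (3 + 3 * (m * 2))) K) = monomial 0 1 from rfl,
        monomial_mem_WtGE] at h3
      simp at h3
  refine ⟨main, fun h => ?_⟩
  obtain ⟨n, G, hG1, hG2, hG3, hG4, hG5⟩ := main 1 le_rfl
  have := h n _ hG1 hG2 hG3 1 le_rfl 3 3 (by rw [pow_one]; exact hG4) hG5
  omega

end Main

end Pool.Agent.Results.MP_0bcfe8_al.LargeDrop
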